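import Mathlib
import Pool.Agent.V11255.CJ5

/-!
# Conjugacy of topologically transitive homeomorphisms of the Cantor set (MP_f7d718, Q2)

Isomorphism of countable graphs (even of binary relations on `ℕ`) is Borel reducible to
topological conjugacy of topologically transitive homeomorphisms of the Cantor set, by a
continuous reduction.  With the reduction in the other direction, which the problem file lists
as known, conjugacy on the transitive homeomorphisms is bi-reducible with the maximal
`S_∞`-action.
-/

set_option autoImplicit false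

open Set Topology Filter

namespace Pool.Agent.Results.MP_f7d718_lc.TransitiveConjugacy

/-- The Cantor set. -/
abbrev C : Type := ℕ → Bool

/-- Topological transitivity: for all nonempty open `U`, `V` some `T ^ n (U)`, `n ∈ ℤ`,
meets `V`. -/
def IsTransitive (T : C ≃ₜ C) : Prop :=
  ∀ U V : Set C, IsOpen U → IsOpen V → U.Nonempty → V.Nonempty →
    ∃ n : ℤ, ((T ^ n : C ≃ₜ C) '' U ∩ V).Nonempty

/-- Topological mixing: for all nonempty open `U`, `V` the set `T ^ n (U)` meets `V` for all
large `n`. -/
def IsMixing (T : C ≃ₜ C) : Prop :=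
  ∀ U V : Set C, IsOpen U → IsOpen V → U.Nonempty → V.Nonempty →
    ∃ M : ℕ, ∀ n : ℕ, M ≤ n → ((T ^ n : C ≃ₜ C) '' U ∩ V).Nonempty

/-- The topology of uniform convergence on `Homeo(C)`: the topology induced by the inclusion in
the space of continuous self-maps of `C` with the compact-open topology (`C` is compact). -/
@[reducible] def uniformTopology : TopologicalSpace (C ≃ₜ C) :=
  TopologicalSpace.induced (fun T => (⟨T, T.continuous⟩ : C(C, C))) inferInstance

/-- Topological conjugacy. -/
def Conj (S T : C ≃ₜ C) : Prop := ∃ h : C ≃ₜ C, S = h * T * h⁻¹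

/-- Isomorphism of the structures `(ℕ, G)` and `(ℕ, H)`, `G` and `H` binary relations; on the
symmetric irreflexive relations this is isomorphism of countable graphs. -/
def Iso (G H : ℕ → ℕ → Bool) : Prop := ∃ σ : Equiv.Perm ℕ, ∀ a b, G a b = H (σ a) (σ b)

open Pool.Agent.V11255.CJ

theorem result : ∃ f : (ℕ → ℕ → Bool) → (C ≃ₜ C),
    Continuous[inferInstance, uniformTopology] f ∧
    (∀ G, IsTransitive (f G)) ∧ (∀ G, IsMixing (f G)) ∧
    ∀ G H, Iso G H ↔ Conj (f G) (f H) := by
  obtain ⟨B⟩ := exists_cantor
  let f : (ℕ → ℕ → Bool) → (C ≃ₜ C) := fun G => B.trans ((TH G).trans B.symm)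
  have hf : ∀ G x, f G x = B.symm (TH G (B x)) := fun G x => rfl
  have hpow : ∀ G (n : ℕ) x, (f G ^ n : C ≃ₜ C) x = B.symm (Tn G n (B x)) := by
    intro G n
    induction n with
    | zero =>
      intro x
      rw [pow_zero]
      simp [Tn_zero]
    | succ n ih =>
      intro x
      rw [pow_succ']
      show f G ((f G ^ n : C ≃ₜ C) x) = _
      rw [ih, hf, B.apply_symm_apply, TH_apply, Tn_add]
      congr 2
      push_cast
      ring
  have hmix : ∀ G, IsMixing (f G) := by
    intro G U V hU hV hU' hV'
    obtain ⟨M, hM⟩ := mixing G (B.symm ⁻¹' U) (B.symm ⁻¹' V) (hU.preimage B.symm.continuous)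
      (hV.preimage B.symm.continuous) (hU'.preimage B.symm.surjective)
      (hV'.preimage B.symm.surjective)
    refine ⟨M, fun n hn => ?_⟩
    obtain ⟨y, h1, h2⟩ := hM n hn
    refine ⟨B.symm (Tn G n y), ⟨B.symm y, h1, ?_⟩, h2⟩
    rw [hpow, B.apply_symm_apply]
  refine ⟨f, ?_, ?_, hmix, ?_⟩
  · rw [uniformTopology, continuous_induced_rng]
    let F : C((ℕ → ℕ → Bool) × C, C) := ⟨fun p => B.symm (Tn p.1 1 (B p.2)),
      B.symm.continuous.comp ((continuous_Tn 1).comp
        (continuous_fst.prodMk (B.continuous.comp continuous_snd)))⟩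
    exact F.curry.continuous
  · intro G U V hU hV hU' hV'
    obtain ⟨M, hM⟩ := hmix G U V hU hV hU' hV'
    refine ⟨M, ?_⟩
    rw [zpow_natCast]
    exact hM M le_rfl
  · intro G H
    constructor
    · rintro ⟨σ, hσ⟩
      obtain ⟨e, he⟩ := conj_of_iso ⟨σ, hσ⟩
      refine ⟨(B.trans (e.trans B.symm)).symm, ?_⟩
      ext1 x
      show B.symm (TH G (B x)) =
        B.symm (e.symm (B (B.symm (TH H (B (B.symm (e (B x))))))))
      rw [B.apply_symm_apply, B.apply_symm_apply, ← he, e.symm_apply_apply]
    · rintro ⟨h, hh⟩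
      have h1 : Cj G H (B.symm.trans (h.symm.trans B)) := by
        intro x
        show B (h.symm (B.symm (TH G x))) = TH H (B (h.symm (B.symm x)))
        have h2 : f G (B.symm x) = h (f H (h.symm (B.symm x))) := by
          rw [hh]
          rfl
        rw [hf, hf, B.apply_symm_apply] at h2
        rw [h2, h.symm_apply_apply, B.apply_symm_apply]
      exact iso_of_conj h1

end Pool.Agent.Results.MP_f7d718_lc.TransitiveConjugacy
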